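import Pool.Agent.LE60.Final
import Pool.Agent.LE60.Att

/-!
# The remainder in the expansion of the minimal logarithmic energy on the sphere

Let `𝓔 N` be the minimal logarithmic energy of `N` distinct points of the unit sphere `𝕊² ⊂ ℝ³` and
`R_N = 𝓔 N - C₁ N² - C₂ N log N - C₃ N`, `C₁ = 1/2 - log 2`, `C₂ = -1/2`,
`C₃ = lim (𝓔 N - C₁ N² - C₂ N log N) / N` (the limit exists). Then
`R_N = O(N^(2/3) (log N)^(3/2))`.
-/

set_option autoImplicit false

namespace Pool.Agent.Results.MP_0862ea_an.PowerSaving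

open Filter Topology

/-- The logarithmic energy `∑_{i ≠ j} log (1 / ‖x_i - x_j‖)` (ordered pairs). -/
noncomputable def energy {N : ℕ} (x : Fin N → EuclideanSpace ℝ (Fin 3)) : ℝ :=
  ∑ i, ∑ j ∈ Finset.univ.erase i, Real.log (1 / ‖x i - x j‖)

/-- The energies of the configurations of `N` distinct points of the unit sphere. -/
def energies (N : ℕ) : Set ℝ :=
  {E | ∃ x : Fin N → EuclideanSpace ℝ (Fin 3),
    (∀ i, ‖x i‖ = 1) ∧ Function.Injective x ∧ E = energy x}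

theorem result : ∃ (𝓔 : ℕ → ℝ) (C₃ C : ℝ), (∀ N, IsLeast (energies N) (𝓔 N)) ∧
    Tendsto (fun N : ℕ => (𝓔 N - (1 / 2 - Real.log 2) * (N : ℝ) ^ 2
      - (-1 / 2) * (N * Real.log N)) / N) atTop (𝓝 C₃) ∧
    ∀ N : ℕ, 2 ≤ N →
      |𝓔 N - (1 / 2 - Real.log 2) * (N : ℝ) ^ 2 - (-1 / 2) * (N * Real.log N) - C₃ * N|
        ≤ C * ((N : ℝ) ^ (2 / 3 : ℝ) * Real.log N ^ (3 / 2 : ℝ)) := by
  obtain ⟨C₃, C, h1, h2⟩ := LE60.main
  have hmin : ∀ N, IsLeast (energies N) (LE60.minE N) := by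
    intro N
    obtain ⟨x, hx, hinj, hle⟩ := LE60.attained N
    have hleast : IsLeast (energies N) (energy x) := by
      refine ⟨⟨x, hx, hinj, rfl⟩, ?_⟩
      rintro E ⟨y, hy, hyi, rfl⟩
      exact hle y hy hyi
    have : LE60.minE N = energy x := hleast.csInf_eq
    rw [this]
    exact hleast
  refine ⟨LE60.minE, C₃, C, hmin, ?_, fun N hN => ?_⟩
  · refine h1.congr fun N => ?_
    ring
  · have h3 := h2 N hN
    convert h3 using 2
    ring

end Pool.Agent.Results.MP_0862ea_an.PowerSaving
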